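import Pool.Agent.K6.H4.ItmBd

/-!
# MP_d0d08e_co, Q1: clique-width of graphs excluding an induced topological minor

Clique-width is bounded on the `H`-induced-topological-minor-free graphs if and only if `H` is an
induced subgraph of `P₄`, of the paw or of the diamond.

* Necessity: complements of incidence graphs, split graphs, truncated complete graphs and truncated
  walls have unbounded clique-width, and a graph which is an induced topological minor of members
  of these four families is an induced subgraph of one of the three graphs (`necessity'`).
* Sufficiency: a 2-connected graph with no induced subdivision of the paw is a cycle, or the join of
  independent sets; a 2-connected graph with no induced subdivision of the diamond is a cycle or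
  complete (`paw_two`, `dia_two`).
-/

set_option autoImplicit false

namespace Pool.Agent.Results.MP_d0d08e_co.Classification

open Pool.Agent.K6.H4.Itm Pool.Agent.H175R2
open scoped SimpleGraph

/-- **Classification.** For a finite graph `H`, the clique-width of the finite graphs that do not
contain `H` as an induced topological minor is bounded if and only if `H` is an induced subgraph of
the path `P₄`, of the paw or of the diamond. -/
theorem result {W : Type} [Finite W] (H : SimpleGraph W) :
    (∃ c : ℕ, ∀ (V : Type) [Finite V] (G : SimpleGraph V), ¬ IsInducedTopologicalMinor H G →
      cliqueWidth G ≤ c) ↔
    H ⊴ SimpleGraph.pathGraph 4 ∨ H ⊴ paw ∨ H ⊴ diamond :=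
  bdd_iff H

end Pool.Agent.Results.MP_d0d08e_co.Classification
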